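import Pool.Agent.N763.SY.Fam

/-!
Equivariant families of closed two-forms on a normal covering, over a set with an invariant mean.
-/

set_option autoImplicit false

open Set Filter Topology MeasureTheory
open scoped Manifold ContDiff

noncomputable section

namespace Pool.Agent.N763.SY

open Pool.Agent.Y501.SY

section

variable {d : ℕ} {Z X : Type} [TopologicalSpace Z] [ChartedSpace (E d) Z]
  [TopologicalSpace X] [ChartedSpace (E d) X] {P : Type}

/-- the mean of the forms `w p` is positive at `z` on the lifts of `v` and `J v` -/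
def MPos (m : (P → ℝ) → ℝ) (pr : Z → X) (J : End d X) (w : P → Form d Z 2) (z : Z)
    (v : TangentSpace (𝓡 d) (pr z)) : Prop :=
  ∃ u u' : TangentSpace (𝓡 d) z, mfderiv (𝓡 d) (𝓡 d) pr z u = v ∧
    mfderiv (𝓡 d) (𝓡 d) pr z u' = J (pr z) v ∧ 0 < m (fun p : P => w p z ![u, u'])

/-- the points of `X` over which the mean of the forms `w p` does not tame `J` -/
def NotM (m : (P → ℝ) → ℝ) (pr : Z → X) (J : End d X) (w : P → Form d Z 2) : Set X :=
  {x | ∃ z : Z, pr z = x ∧ ∃ v : TangentSpace (𝓡 d) (pr z), v ≠ 0 ∧ ¬ MPos m pr J w z v}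

end

section

variable {d : ℕ} {Z X : Type} [TopologicalSpace Z] [ChartedSpace (E d) Z]
  [IsManifold (𝓡 d) ∞ Z] [TopologicalSpace X] [ChartedSpace (E d) X]
  [IsManifold (𝓡 d) ∞ X] {G P : Type} [Group G] [MulAction G Z] [MulAction G P]

/-- the mean of an equivariant uniformly bounded family of closed forms descends -/
theorem descend {m : (P → ℝ) → ℝ} (hm : FMean m)
    (hinv : ∀ (g : G) (F : P → ℝ), Bdd F → m (fun p => F (g • p)) = m F)
    (hsm : ∀ g : G, ContMDiff (𝓡 d) (𝓡 d) ∞ (fun z : Z => g • z)) {pr : Z → X}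
    (hpr : IsLocalDiffeomorph (𝓡 d) (𝓡 d) ∞ pr) (hsurj : Function.Surjective pr)
    (hfib : ∀ z z' : Z, pr z = pr z' ↔ ∃ g : G, g • z = z')
    {w : P → Form d Z 2} (hw : ∀ p, IsSmooth (w p)) (hwc : ∀ p, IsClosedForm (w p))
    (heq : ∀ (g : G) (p : P), pull (d := d) (fun z : Z => g • z) (w (g • p)) = w p)
    (hbd : UBF w) :
    ∃ σ : Form d X 2, IsSmooth σ ∧ IsClosedForm σ ∧
      ∀ (z : Z) (u : Fin 2 → TangentSpace (𝓡 d) z),
        pull (d := d) pr σ z u = m (fun p : P => w p z u) := by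
  obtain ⟨w', hw', hwc', hav⟩ := mean_family hm w hw hwc hbd
  have hi : ∀ g : G, pull (d := d) (fun z : Z => g • z) w' = w' := by
    intro g
    funext z
    ext u
    have hu : ![u 0, u 1] = u := by
      funext i; fin_cases i <;> rfl
    have e1 : pull (d := d) (fun z : Z => g • z) w' z u =
        w' (g • z) ![mfderiv (𝓡 d) (𝓡 d) (fun z : Z => g • z) z (u 0),
          mfderiv (𝓡 d) (𝓡 d) (fun z : Z => g • z) z (u 1)] := by
      rw [← pull_apply, hu]
    rw [e1, (hav _ _).2, (hav _ _).2, ← hinv g _ (hav _ _).1]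
    congr 1
    funext p
    rw [← pull_apply, heq, hu]
  obtain ⟨σ, hσ, hσc, hpull⟩ := Pool.Agent.Y391.SY.t_DESC d Z X G pr hsm hpr hsurj hfib w' hw' hwc'
    hi
  refine ⟨σ, hσ, hσc, fun z u => ?_⟩
  rw [hpull, (hav z u).2]

omit [IsManifold (𝓡 d) ∞ Z] [IsManifold (𝓡 d) ∞ X] in
theorem bij_of {pr : Z → X} (hpr : IsLocalDiffeomorph (𝓡 d) (𝓡 d) ∞ pr) (z : Z) :
    Function.Bijective (mfderiv (𝓡 d) (𝓡 d) pr z) := by
  have h1 := (hpr z).mfderivToContinuousLinearEquiv_coe (by simp)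
  rw [← h1]
  exact ((hpr z).mfderivToContinuousLinearEquiv (by simp)).bijective

theorem mean_main {m : (P → ℝ) → ℝ} (hm : FMean m)
    (hinv : ∀ (g : G) (F : P → ℝ), Bdd F → m (fun p => F (g • p)) = m F)
    (hsm : ∀ g : G, ContMDiff (𝓡 d) (𝓡 d) ∞ (fun z : Z => g • z)) {pr : Z → X}
    (hpr : IsLocalDiffeomorph (𝓡 d) (𝓡 d) ∞ pr) (hsurj : Function.Surjective pr)
    (hfib : ∀ z z' : Z, pr z = pr z' ↔ ∃ g : G, g • z = z')
    [CompactSpace X] [T2Space X] {J : End d X} (hJ : IsAlmostComplex J)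
    {w : P → Form d Z 2} (hw : ∀ p, IsSmooth (w p)) (hwc : ∀ p, IsClosedForm (w p))
    (heq : ∀ (g : G) (p : P), pull (d := d) (fun z : Z => g • z) (w (g • p)) = w p)
    (hbd : UBF w)
    {k : ℕ} {Y : Type} [TopologicalSpace Y] [ChartedSpace (E k) Y] [IsManifold (𝓡 k) ∞ Y]
    [T2Space Y] {f : X → Y} (hf : ContMDiff (𝓡 d) (𝓡 k) ∞ f)
    (hker : ∀ (z : Z) (v : TangentSpace (𝓡 d) (pr z)), ¬ MPos m pr J w z v →
      mfderiv (𝓡 d) (𝓡 k) f (pr z) v = 0)
    (hsmall : ∀ z : Z, pr z ∈ NotM m pr J w →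
      SmallP J (connectedComponentIn (NotM m pr J w ∩ f ⁻¹' {f (pr z)}) (pr z)) (pr z)
        (fun v => ¬ MPos m pr J w z v)) :
    ∃ (τ : Form d X 2) (α : Form d X 1) (ρ : Form d X 2), IsSmooth τ ∧ IsClosedForm τ ∧
      (∀ x, TamesAt τ J x) ∧ IsSmooth α ∧ IsSmooth ρ ∧ IsD α ρ ∧
      ∀ (z : Z) (u : Fin 2 → TangentSpace (𝓡 d) z), pull (d := d) pr τ z u =
        m (fun p : P => w p z u) + pull (d := d) pr ρ z u := by
  obtain ⟨σ, hσ, hσc, hmean⟩ := descend hm hinv hsm hpr hsurj hfib hw hwc heq hbd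
  have hbij := bij_of hpr
  have key : ∀ (z : Z) (v : TangentSpace (𝓡 d) (pr z)),
      MPos m pr J w z v ↔ 0 < σ (pr z) ![v, J (pr z) v] := by
    intro z v
    have e1 : ∀ u u' : TangentSpace (𝓡 d) z, mfderiv (𝓡 d) (𝓡 d) pr z u = v →
        mfderiv (𝓡 d) (𝓡 d) pr z u' = J (pr z) v →
        σ (pr z) ![v, J (pr z) v] = m (fun p : P => w p z ![u, u']) := by
      intro u u' hu hu'
      rw [← hmean, pull_apply, hu, hu']
    constructor
    · rintro ⟨u, u', hu, hu', h0⟩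
      rw [e1 u u' hu hu']
      exact h0
    · intro h0
      obtain ⟨u, hu⟩ := (hbij z).2 v
      obtain ⟨u', hu'⟩ := (hbij z).2 (J (pr z) v)
      exact ⟨u, u', hu, hu', by rw [← e1 u u' hu hu']; exact h0⟩
  have hset : {x | ¬ TamesAt σ J x} = NotM m pr J w := by
    ext x
    constructor
    · intro hx
      obtain ⟨z, rfl⟩ := hsurj x
      by_contra hne
      apply hx
      intro v hv
      rw [← key z v]
      by_contra hn
      exact hne ⟨z, rfl, v, hv, hn⟩
    · rintro ⟨z, rfl, v, hv, hn⟩ ht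
      exact hn ((key z v).2 (ht v hv))
  obtain ⟨τ, α, h1, h2, h3, -, h5, h6⟩ := final hJ hσ hσc hf
    (by
      intro x v hv
      obtain ⟨z, rfl⟩ := hsurj x
      exact hker z v fun h => absurd ((key z v).1 h) (not_lt.2 hv))
    (by
      intro x hx
      obtain ⟨z, rfl⟩ := hsurj x
      have hx' : pr z ∈ NotM m pr J w := by rw [← hset]; exact hx
      rw [hset]
      refine (hsmall z hx').smallAt subset_rfl fun v hv hle => ?_
      intro hup
      exact absurd ((key z v).1 hup) (not_lt.2 hle))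
  refine ⟨τ, α, τ - σ, h1, h2, h3, h5, ?_, h6, ?_⟩
  · have h7 := h1.add (hσ.smul (-1))
    have h8 : τ + (-1 : ℝ) • σ = τ - σ := by
      funext x
      ext u
      change τ x u + (-1 : ℝ) * σ x u = τ x u - σ x u
      ring
    rwa [h8] at h7
  · intro z u
    rw [← hmean]
    change (τ (pr z)) _ = (σ (pr z)) _ + ((τ (pr z)) _ - (σ (pr z)) _)
    ring

/-- the constant family of the lift of a taming symplectic form -/
theorem const_family [Nonempty P] {m : (P → ℝ) → ℝ} (hm : FMean m)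
    (hsm : ∀ g : G, ContMDiff (𝓡 d) (𝓡 d) ∞ (fun z : Z => g • z)) {pr : Z → X}
    (hpr : IsLocalDiffeomorph (𝓡 d) (𝓡 d) ∞ pr)
    (hfib : ∀ z z' : Z, pr z = pr z' ↔ ∃ g : G, g • z = z')
    {J : End d X} {τ : Form d X 2} (h1 : IsSmooth τ) (h2 : IsClosedForm τ)
    (h3 : ∀ x, TamesAt τ J x) :
    IsSmooth (pull (d := d) (X := Z) pr τ) ∧ IsClosedForm (pull (d := d) (X := Z) pr τ) ∧
      (∀ g : G, pull (d := d) (fun z : Z => g • z) (pull (d := d) pr τ) = pull (d := d) pr τ) ∧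
      UBF (fun _ : P => pull (d := d) (X := Z) pr τ) ∧
      ∀ (z : Z) (v : TangentSpace (𝓡 d) (pr z)), v ≠ 0 →
        MPos m pr J (fun _ : P => pull (d := d) (X := Z) pr τ) z v := by
  have hprs : ContMDiff (𝓡 d) (𝓡 d) ∞ pr := hpr.contMDiff
  obtain ⟨e1, e2⟩ := Pool.Agent.Y604.SY.t_PULL d d Z X pr τ hprs h1 h2
  refine ⟨e1, e2, fun g => pull_inv hsm hprs
    (fun γ z => ((hfib z (γ • z)).2 ⟨γ, rfl⟩).symm) τ g, ?_, ?_⟩
  · intro U φ hU hφ
    have hs := e1 U φ hU hφ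
    refine ⟨fun _ => hs, fun n p hp => ?_⟩
    have hc : ContinuousOn (iteratedFDeriv ℝ n (pb φ (pull (d := d) (X := Z) pr τ))) U := by
      intro q hq
      have h1 : ContDiffAt ℝ ∞ (pb φ (pull (d := d) (X := Z) pr τ)) q :=
        (hs q hq).contDiffAt (hU.mem_nhds hq)
      exact (h1.iteratedFDeriv_right (m := 0) (i := n)
        (by rw [zero_add]; exact_mod_cast le_top)).continuousAt.continuousWithinAt
    have h2 : ContinuousAt
        (fun q => ‖iteratedFDeriv ℝ n (pb φ (pull (d := d) (X := Z) pr τ)) q‖) p :=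
      (hc.continuousAt (hU.mem_nhds hp)).norm
    exact ⟨_, h2.eventually (gt_mem_nhds (lt_add_one _)), _, fun q hq _ => le_of_lt hq⟩
  · intro z v hv
    obtain ⟨u, hu⟩ := (bij_of hpr z).2 v
    obtain ⟨u', hu'⟩ := (bij_of hpr z).2 (J (pr z) v)
    refine ⟨u, u', hu, hu', ?_⟩
    rw [m_const hm, pull_apply, hu, hu']
    exact h3 (pr z) v hv

end

end Pool.Agent.N763.SY
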