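import Pool.Agent.Y501.SY.PubU

/-!
Means of families of two-forms on normal coverings: the definitions used in the statement of the
result.
-/

set_option autoImplicit false

open Set Filter Topology MeasureTheory
open scoped Manifold ContDiff

noncomputable section

namespace Pool.Agent.N763.SYM

open Pool.Agent.Y501.SYP

/-- `m` is a finitely additive mean on the bounded real functions on the `G`-set `P`, invariant
under `G` (the values of `m` at unbounded functions are irrelevant). -/
structure InvariantMean (G : Type) {P : Type} [Group G] [MulAction G P] (m : (P → ℝ) → ℝ) :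
    Prop where
  add : ∀ F F', Bdd F → Bdd F' → m (fun p => F p + F' p) = m F + m F'
  smul : ∀ (c : ℝ) F, Bdd F → m (fun p => c * F p) = c * m F
  nonneg : ∀ F, Bdd F → (∀ p, 0 ≤ F p) → 0 ≤ m F
  one : m (fun _ => 1) = 1
  inv : ∀ (g : G) (F : P → ℝ), Bdd F → m (fun p => F (g • p)) = m F

section

variable {V : Type} [NormedAddCommGroup V] [NormedSpace ℝ V]
  {Z X : Type} [TopologicalSpace Z] [ChartedSpace V Z]
  [TopologicalSpace X] [ChartedSpace V X] {P : Type}

/-- The forms `w p` are smooth and closed, they are locally uniformly bounded with all their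
derivatives, and the pull-back of `w (g • p)` by `g` is `w p`. -/
structure ClosedFamily (G : Type) [Group G] [MulAction G Z] [MulAction G P]
    (w : P → Form V Z 2) : Prop where
  smooth : ∀ p, IsSmooth (w p)
  closed : ∀ p, IsClosedForm (w p)
  bounded : ∀ (U : Set V) (φ : V → Z), SmoothParam U φ → UnifBdd (fun p : P => pb φ (w p)) U
  equivariant : ∀ (g : G) (p : P), translate g (w (g • p)) = w p

/-- For the tangent vector `v` of `X` at `pr z`, the mean over `p` of the numbers `w p (u, u')`,
where `u`, `u'` are the lifts of `v` and `J v` to `z`, is positive. -/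
def MeanPos (m : (P → ℝ) → ℝ) (pr : Z → X) (J : End V X) (w : P → Form V Z 2) (z : Z)
    (v : TangentSpace 𝓘(ℝ, V) (pr z)) : Prop :=
  ∃ u u' : TangentSpace 𝓘(ℝ, V) z, mfderiv 𝓘(ℝ, V) 𝓘(ℝ, V) pr z u = v ∧
    mfderiv 𝓘(ℝ, V) 𝓘(ℝ, V) pr z u' = J (pr z) v ∧ 0 < m (fun p : P => w p z ![u, u'])

/-- the points of `X` over which the mean of the forms `w p` does not tame `J` -/
def NotMean (m : (P → ℝ) → ℝ) (pr : Z → X) (J : End V X) (w : P → Form V Z 2) : Set X :=
  {x | ∃ z : Z, pr z = x ∧ ∃ v : TangentSpace 𝓘(ℝ, V) (pr z), v ≠ 0 ∧ ¬ MeanPos m pr J w z v}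

/-- The components of the intersections of the set of the points over which the mean of the forms
`w p` does not tame `J` with the sets `{f = const}` are small at all their points. -/
def SmallOnFibres [MeasurableSpace V] [BorelSpace V] {Y : Type} (m : (P → ℝ) → ℝ) (pr : Z → X)
    (J : End V X) (w : P → Form V Z 2) (f : X → Y) : Prop :=
  ∀ z : Z, pr z ∈ NotMean m pr J w →
    SmallAt J (connectedComponentIn (NotMean m pr J w ∩ f ⁻¹' {f (pr z)}) (pr z)) (pr z)
      (fun v => ¬ MeanPos m pr J w z v)

/-- The pull-back of `τ` to `Z` is the sum of the mean of the forms `w p` and the pull-back of the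
exterior derivative of a smooth one-form on `X`. -/
def InMeanClass (m : (P → ℝ) → ℝ) (pr : Z → X) (w : P → Form V Z 2) (τ : Form V X 2) : Prop :=
  ∃ (α : Form V X 1) (ρ : Form V X 2), IsSmooth α ∧ IsSmooth ρ ∧ IsD α ρ ∧
    ∀ (z : Z) (u : Fin 2 → TangentSpace 𝓘(ℝ, V) z),
      lift pr τ z u = m (fun p : P => w p z u) + lift pr ρ z u

/-- The differential of the smooth map `f` kills the tangent vectors on which the mean of the forms
`w p` is not positive. -/
structure Kills {W Y : Type} [NormedAddCommGroup W] [NormedSpace ℝ W] [TopologicalSpace Y]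
    [ChartedSpace W Y] (m : (P → ℝ) → ℝ) (pr : Z → X) (J : End V X) (w : P → Form V Z 2)
    (f : X → Y) : Prop where
  smooth : ContMDiff 𝓘(ℝ, V) 𝓘(ℝ, W) ∞ f
  kills : ∀ (z : Z) (v : TangentSpace 𝓘(ℝ, V) (pr z)), ¬ MeanPos m pr J w z v →
    mfderiv 𝓘(ℝ, V) 𝓘(ℝ, W) f (pr z) v = 0

end

end Pool.Agent.N763.SYM
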