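import Pool.Agent.Y501.SY.BridgeU
import Pool.Agent.N763.SY.Pub
import Pool.Agent.N763.SY.Mean

/-!
Means of families of two-forms on normal coverings: comparison of the definitions.
-/

set_option autoImplicit false

open Set Filter Topology MeasureTheory
open scoped Manifold ContDiff

noncomputable section

namespace Pool.Agent.N763.SYM

open Pool.Agent.Y501.SYP

attribute [local instance] cs mf

theorem fmean_of {G P : Type} [Group G] [MulAction G P] {m : (P → ℝ) → ℝ}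
    (h : InvariantMean G m) : SY.FMean m :=
  ⟨h.add, h.smul, h.nonneg, h.one⟩

section

variable {d : ℕ} {Z X : Type} [TopologicalSpace Z] [ChartedSpace (ES d) Z]
  [IsManifold 𝓘(ℝ, ES d) ∞ Z] [TopologicalSpace X] [ChartedSpace (ES d) X]
  [IsManifold 𝓘(ℝ, ES d) ∞ X] {G P : Type} [Group G] [MulAction G Z] [MulAction G P]

omit [IsManifold 𝓘(ℝ, ES d) ∞ Z] in
theorem ubf_iff (w : P → Form (ES d) Z 2) :
    (∀ (U : Set (ES d)) (φ : ES d → Z), SmoothParam U φ →
      UnifBdd (fun p : P => pb φ (w p)) U) ↔ SY.UBF (d := d) (Z := Z) w := by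
  constructor
  · intro h U φ hU hφ
    have := h U φ ⟨hU, hφ⟩
    exact ⟨this.smooth, this.bound⟩
  · intro h U φ hφ
    have := h U φ hφ.1 hφ.2
    exact ⟨this.1, this.2⟩

theorem mean_taming [CompactSpace X] [T2Space X] {m : (P → ℝ) → ℝ} (hm : InvariantMean G m)
    {pr : Z → X} (hpr : NormalCovering (ES d) G pr) (J : End (ES d) X) (hJ : IsAlmostComplex J)
    {w : P → Form (ES d) Z 2} (hw : ClosedFamily G w)
    {k : ℕ} {Y : Type} [TopologicalSpace Y] [ChartedSpace (ES k) Y] [IsManifold 𝓘(ℝ, ES k) ∞ Y]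
    [T2Space Y] {f : X → Y} (hf : ContMDiff 𝓘(ℝ, ES d) 𝓘(ℝ, ES k) ∞ f)
    (hker : ∀ (z : Z) (v : TangentSpace 𝓘(ℝ, ES d) (pr z)), ¬ MeanPos m pr J w z v →
      mfderiv 𝓘(ℝ, ES d) 𝓘(ℝ, ES k) f (pr z) v = 0)
    (hsmall : SmallOnFibres m pr J w f) :
    ∃ (τ : Form (ES d) X 2) (α : Form (ES d) X 1) (ρ : Form (ES d) X 2),
      IsTamingSymplectic τ J ∧ IsSmooth α ∧ IsSmooth ρ ∧ IsD α ρ ∧
      ∀ (z : Z) (u : Fin 2 → TangentSpace 𝓘(ℝ, ES d) z),
        lift pr τ z u = m (fun p : P => w p z u) + lift pr ρ z u := by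
  obtain ⟨τ, α, ρ, h1, h2, h3, h4, h5, h6, h7⟩ := SY.mean_main (d := d) (Z := Z) (X := X)
    (G := G) (P := P) (fmean_of hm) hm.inv hpr.smooth (pr := pr) hpr.diffeo hpr.surj hpr.orbits
    (J := J) (ac_of J hJ) (w := w) (fun p => (smooth_iff (w p)).1 (hw.smooth p))
    (fun p => (closed_iff (w p)).1 (hw.closed p)) hw.equivariant ((ubf_iff w).1 hw.bounded)
    (k := k) (Y := Y) (f := f) hf hker (fun z hz => smallP_of (hsmall z hz))
  exact ⟨τ, α, ρ, symp_of ((smooth_iff τ).2 h1) ((closed_iff τ).2 h2) h3, (smooth_iff α).2 h4,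
    (smooth_iff ρ).2 h5, (isD_iff α ρ).2 h6, h7⟩

theorem mean_nonempty {m : (P → ℝ) → ℝ} (hm : InvariantMean G m) : Nonempty P :=
  (fmean_of hm).nonempty

theorem const_closed [Nonempty P] {m : (P → ℝ) → ℝ} (hm : InvariantMean G m)
    {pr : Z → X} (hpr : NormalCovering (ES d) G pr) (J : End (ES d) X)
    {τ : Form (ES d) X 2} (h : IsTamingSymplectic τ J) :
    ClosedFamily G (fun _ : P => lift pr τ) ∧
      ∀ (z : Z) (v : TangentSpace 𝓘(ℝ, ES d) (pr z)), v ≠ 0 →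
        MeanPos m pr J (fun _ : P => lift pr τ) z v := by
  obtain ⟨h1, h2, h3, h4, h5⟩ := SY.const_family (d := d) (Z := Z) (X := X) (G := G) (P := P)
    (fmean_of hm) hpr.smooth (pr := pr) hpr.diffeo hpr.orbits (J := J) (τ := τ)
    ((smooth_iff τ).1 h.smooth) ((closed_iff τ).1 h.closed) h.tames
  exact ⟨⟨fun _ => (smooth_iff _).2 h1, fun _ => (closed_iff _).2 h2, (ubf_iff _).2 h4,
    fun g _ => h3 g⟩, h5⟩

end

end Pool.Agent.N763.SYM
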