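import Pool.Agent.Y501.SY.FinalU

/-!
Means of uniformly bounded families of closed two-forms (after `Pool.Agent.Y153.SY.Avg` and
`Pool.Agent.Y141.SY.Mean`).
-/

set_option autoImplicit false
set_option linter.all false

open Set Filter Topology MeasureTheory Asymptotics
open scoped Manifold ContDiff

noncomputable section

namespace Pool.Agent.N763.SY

open Pool.Agent.Y501.SY
open Pool.Agent.Y153.SY (bdd_add bdd_smul bdd_sub bdd_val ub_deriv)
open Pool.Agent.Y141.SY (smooth_of_eval unif_eval)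

/-- a finitely additive mean on the bounded functions on a set `P` -/
structure FMean {P : Type} (m : (P → ℝ) → ℝ) : Prop where
  add : ∀ F G, Bdd F → Bdd G → m (fun p => F p + G p) = m F + m G
  smul : ∀ (c : ℝ) F, Bdd F → m (fun p => c * F p) = c * m F
  nonneg : ∀ F, Bdd F → (∀ p, 0 ≤ F p) → 0 ≤ m F
  one : m (fun _ => 1) = 1

section mean

variable {P : Type} {m : (P → ℝ) → ℝ}

theorem FMean.nonempty (hm : FMean m) : Nonempty P := by
  by_contra h
  rw [not_nonempty_iff] at h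
  have h1 := hm.smul 0 (fun _ => 1) ⟨1, fun _ => by simp⟩
  have h2 : (fun p : P => (0 : ℝ) * 1) = fun _ => 1 := by
    funext p
    exact h.elim p
  rw [h2, hm.one] at h1
  norm_num at h1

theorem m_const (hm : FMean m) (c : ℝ) : m (fun _ : P => c) = c := by
  have h := hm.smul c (fun _ => 1) ⟨1, fun _ => by simp⟩
  rw [hm.one] at h
  simpa using h

theorem m_sub (hm : FMean m) {F G : P → ℝ} (hF : Bdd F) (hG : Bdd G) :
    m (fun γ => F γ - G γ) = m F - m G := by
  have h1 := hm.add F (fun γ => (-1) * G γ) hF (bdd_smul (-1) hG)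
  rw [hm.smul (-1) G hG] at h1
  have e : (fun γ => F γ - G γ) = fun γ => F γ + (-1) * G γ := by
    funext γ
    ring
  rw [e, h1]
  ring

theorem m_abs (hm : FMean m) {F : P → ℝ} {C : ℝ} (hF : ∀ γ, |F γ| ≤ C) : |m F| ≤ C := by
  have hc : m (fun _ : P => C) = C := m_const hm C
  have hb : Bdd F := ⟨C, hF⟩
  have hbc : Bdd (fun _ : P => C) := ⟨|C|, fun _ => le_rfl⟩
  rw [abs_le]
  constructor
  · have h1 := hm.nonneg (fun γ => F γ + C) (bdd_add hb hbc) (fun γ => by
      have := (abs_le.1 (hF γ)).1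
      linarith)
    rw [hm.add F (fun _ => C) hb hbc, hc] at h1
    linarith
  · have h1 := hm.nonneg (fun γ => C - F γ) (bdd_sub hbc hb) (fun γ => by
      have := (abs_le.1 (hF γ)).2
      linarith)
    rw [m_sub hm hbc hb, hc] at h1
    linarith

theorem m_sum (hm : FMean m) {ι : Type} (s : Finset ι) (c : ι → ℝ) (G : ι → P → ℝ)
    (hG : ∀ i, Bdd (G i)) :
    Bdd (fun γ => ∑ i ∈ s, c i * G i γ) ∧
      m (fun γ => ∑ i ∈ s, c i * G i γ) = ∑ i ∈ s, c i * m (G i) := by
  classical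
  induction s using Finset.induction_on with
  | empty =>
    simp only [Finset.sum_empty]
    refine ⟨⟨0, fun _ => by simp⟩, ?_⟩
    exact m_const hm 0
  | insert a s ha ih =>
    simp only [Finset.sum_insert ha]
    refine ⟨bdd_add (bdd_smul _ (hG a)) ih.1, ?_⟩
    rw [hm.add _ _ (bdd_smul _ (hG a)) ih.1, hm.smul _ _ (hG a), ih.2]

end mean

variable {P : Type} {m : (P → ℝ) → ℝ} {d : ℕ} {U : Set (E d)} {f : P → E d → ℝ}

/-- the derivative of the mean -/
def L (m : (P → ℝ) → ℝ) (f : P → E d → ℝ) (p : E d) : E d →L[ℝ] ℝ :=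
  ∑ i : Fin d, m (fun γ => fderiv ℝ (f γ) p (EuclideanSpace.single i 1)) •
    (EuclideanSpace.proj i : E d →L[ℝ] ℝ)

theorem L_apply (hm : FMean m) (hU : IsOpen U) (hf : UnifBdd f U) {p : E d} (hp : p ∈ U)
    (v : E d) : L m f p v = m (fun γ => fderiv ℝ (f γ) p v) := by
  have h1 : ∀ γ, fderiv ℝ (f γ) p v =
      ∑ i, v i * fderiv ℝ (f γ) p (EuclideanSpace.single i 1) := by
    intro γ
    have hv : v = ∑ i, v i • (EuclideanSpace.single i (1 : ℝ) : E d) := by
      ext j
      simp [Pi.single_apply]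
    conv_lhs => rw [hv, map_sum]
    simp
  simp only [h1]
  rw [(m_sum hm Finset.univ (fun i => v i)
    (fun i γ => fderiv ℝ (f γ) p (EuclideanSpace.single i 1))
    (fun i => bdd_val (ub_deriv hU hf _) hp)).2]
  simp [L, mul_comm]

theorem hasFDeriv (hm : FMean m) (hU : IsOpen U) (hf : UnifBdd f U) {p : E d} (hp : p ∈ U) :
    HasFDerivAt (fun q => m (fun γ => f γ q)) (L m f p) p := by
  obtain ⟨N, hN, C, hC⟩ := hf.2 2 p hp
  obtain ⟨r, hr, hrN⟩ := Metric.mem_nhds_iff.1 (inter_mem hN (hU.mem_nhds hp))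
  obtain ⟨γ₀⟩ := hm.nonempty
  have hC0 : 0 ≤ C := (norm_nonneg _).trans (hC p (mem_of_mem_nhds hN) γ₀)
  refine HasFDerivAt.of_isLittleO ?_
  refine (IsBigO.of_bound C ?_).trans_isLittleO (isLittleO_pow_sub_sub p one_lt_two)
  filter_upwards [Metric.ball_mem_nhds p hr] with q hq
  have hqU : q ∈ U := (hrN hq).2
  have key : ∀ γ, |f γ q - f γ p - fderiv ℝ (f γ) p (q - p)| ≤ C * ‖q - p‖ ^ 2 := by
    intro γ
    have hd : ∀ z ∈ Metric.ball p r, DifferentiableAt ℝ (f γ) z := fun z hz =>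
      ((hf.1 γ).contDiffAt (hU.mem_nhds (hrN hz).2)).differentiableAt (by simp)
    have hd2 : ∀ z ∈ Metric.ball p r, DifferentiableAt ℝ (fderiv ℝ (f γ)) z := fun z hz =>
      (((hf.1 γ).fderiv_of_isOpen hU (m := ∞) (by simp)).contDiffAt
        (hU.mem_nhds (hrN hz).2)).differentiableAt (by simp)
    have hb2 : ∀ z ∈ Metric.ball p r, ‖fderiv ℝ (fderiv ℝ (f γ)) z‖ ≤ C := fun z hz => by
      have h := hC z (hrN hz).1 γ
      rwa [show (2 : ℕ) = 1 + 1 from rfl, ← norm_iteratedFDeriv_fderiv,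
        norm_iteratedFDeriv_one] at h
    have hl : ∀ z ∈ Metric.ball p r, ‖fderiv ℝ (f γ) z - fderiv ℝ (f γ) p‖ ≤ C * ‖z - p‖ :=
      fun z hz => (convex_ball p r).norm_image_sub_le_of_norm_fderiv_le hd2 hb2
        (Metric.mem_ball_self hr) hz
    have hsub : Metric.closedBall p ‖q - p‖ ⊆ Metric.ball p r :=
      Metric.closedBall_subset_ball (by simpa [dist_eq_norm] using hq)
    have h := (convex_closedBall p ‖q - p‖).norm_image_sub_le_of_norm_hasFDerivWithin_le'
      (f := f γ) (f' := fderiv ℝ (f γ)) (φ := fderiv ℝ (f γ) p) (C := C * ‖q - p‖) (x := p) (y := q)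
      (fun z hz => (hd z (hsub hz)).hasFDerivAt.hasFDerivWithinAt)
      (fun z hz => (hl z (hsub hz)).trans
        (mul_le_mul_of_nonneg_left (mem_closedBall_iff_norm.1 hz) hC0))
      (Metric.mem_closedBall_self (norm_nonneg _)) (by simp [dist_eq_norm])
    rw [Real.norm_eq_abs] at h
    refine h.trans (le_of_eq ?_)
    ring
  have hb1 : Bdd (fun γ => f γ q) := bdd_val hf hqU
  have hb2 : Bdd (fun γ => f γ p) := bdd_val hf hp
  have hb3 : Bdd (fun γ => fderiv ℝ (f γ) p (q - p)) := bdd_val (ub_deriv hU hf _) hp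
  rw [L_apply hm hU hf hp, ← m_sub hm hb1 hb2, ← m_sub hm (bdd_sub hb1 hb2) hb3,
    Real.norm_eq_abs, Real.norm_eq_abs, abs_of_nonneg (by positivity : (0 : ℝ) ≤ ‖q - p‖ ^ 2)]
  exact m_abs hm key

theorem smooth_nat (hm : FMean m) (hU : IsOpen U) (n : ℕ) : ∀ f : P → E d → ℝ, UnifBdd f U →
    ContDiffOn ℝ n (fun q => m (fun γ => f γ q)) U := by
  induction n with
  | zero =>
    intro f hf
    exact contDiffOn_zero.2 fun p hp => (hasFDeriv hm hU hf hp).continuousAt.continuousWithinAt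
  | succ n ih =>
    intro f hf
    rw [show ((n + 1 : ℕ) : WithTop ℕ∞) = n + 1 by push_cast; rfl,
      contDiffOn_succ_iff_fderiv_of_isOpen hU]
    refine ⟨fun p hp => (hasFDeriv hm hU hf hp).differentiableAt.differentiableWithinAt,
      fun h => by simp at h, ?_⟩
    refine ContDiffOn.congr (f := fun p => L m f p) ?_ fun p hp => (hasFDeriv hm hU hf hp).fderiv
    unfold L
    exact ContDiffOn.sum fun i _ => (ih _ (ub_deriv hU hf _)).smul contDiffOn_const

/-- differentiation under the mean -/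
theorem avg (hm : FMean m) (hU : IsOpen U) (hf : UnifBdd f U) :
    ContDiffOn ℝ ∞ (fun p => m (fun γ => f γ p)) U ∧
      ∀ p ∈ U, ∀ v : E d, fderiv ℝ (fun p => m (fun γ => f γ p)) p v =
        m (fun γ => fderiv ℝ (f γ) p v) := by
  refine ⟨contDiffOn_infty.2 fun n => smooth_nat hm hU n f hf, fun p hp v => ?_⟩
  rw [(hasFDeriv hm hU hf hp).fderiv, L_apply hm hU hf hp]

/-- the mean of bounded alternating maps -/
theorem exists_avg (hm : FMean m) (F : P → (E d) [⋀^Fin 2]→L[ℝ] ℝ)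
    (hF : ∃ C : ℝ, ∀ γ u, |F γ u| ≤ C * ∏ i, ‖u i‖) :
    ∃ α : (E d) [⋀^Fin 2]→L[ℝ] ℝ, ∀ u, α u = m (fun γ => F γ u) := by
  obtain ⟨C, hC⟩ := hF
  have hb : ∀ u, Bdd (fun γ => F γ u) := fun u => ⟨_, fun γ => hC γ u⟩
  let f : (E d) [⋀^Fin 2]→ₗ[ℝ] ℝ :=
    { toFun := fun u => m (fun γ => F γ u)
      map_update_add' := by
        intro _ u i x y
        have h1 : ∀ γ, F γ (Function.update u i (x + y)) =
            F γ (Function.update u i x) + F γ (Function.update u i y) := fun γ => by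
          convert (F γ).map_update_add u i x y
        simp only [h1]
        exact hm.add _ _ (hb _) (hb _)
      map_update_smul' := by
        intro _ u i c x
        have h1 : ∀ γ, F γ (Function.update u i (c • x)) =
            c * F γ (Function.update u i x) := fun γ => by
          rw [← smul_eq_mul]
          convert (F γ).map_update_smul u i c x
        simp only [h1]
        exact hm.smul _ _ (hb _)
      map_eq_zero_of_eq' := by
        intro u i j hij hne
        have h1 : ∀ γ, F γ u = 0 := fun γ => (F γ).map_eq_zero_of_eq u hij hne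
        simp only [h1]
        exact m_const hm 0 }
  exact ⟨AlternatingMap.mkContinuous f C fun u => m_abs hm fun γ => hC γ u, fun u => rfl⟩

section

variable {Z : Type} [TopologicalSpace Z] [ChartedSpace (E d) Z]

/-- a family of two-forms is locally uniformly bounded with all derivatives -/
def UBF (w : P → Form d Z 2) : Prop :=
  ∀ (U : Set (E d)) (φ : E d → Z), IsOpen U → ContMDiffOn (𝓡 d) (𝓡 d) ∞ φ U →
    UnifBdd (fun p : P => pb φ (w p)) U

variable [IsManifold (𝓡 d) ∞ Z]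

theorem mean_family (hm : FMean m) (w : P → Form d Z 2) (hw : ∀ p, IsSmooth (w p))
    (hcl : ∀ p, IsClosedForm (w p)) (hbt : UBF w) :
    ∃ w' : Form d Z 2, IsSmooth w' ∧ IsClosedForm w' ∧
      ∀ (z : Z) (u : Fin 2 → TangentSpace (𝓡 d) z),
        Bdd (fun p : P => w p z u) ∧ w' z u = m (fun p : P => w p z u) := by
  have bound : ∀ z : Z, ∃ C : ℝ, ∀ (γ : P) (u : Fin 2 → E d),
      |(w γ z : (E d) [⋀^Fin 2]→L[ℝ] ℝ) u| ≤ C * ∏ i, ‖u i‖ := by
    intro z
    obtain ⟨e, he⟩ : ∃ e, e = chartAt (E d) z := ⟨_, rfl⟩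
    have hat : e ∈ atlas (E d) Z := by rw [he]; exact chart_mem_atlas _ _
    have hz : z ∈ e.source := by rw [he]; exact mem_chart_source _ _
    have hsmooth : ContMDiffOn (𝓡 d) (𝓡 d) ∞ e.symm e.target := by
      rw [he]
      exact contMDiffOn_chart_symm
    have hmd := mdifferentiable_chart (I := 𝓡 d) z
    rw [← he] at hmd
    have hpt : e z ∈ e.target := e.map_source hz
    obtain ⟨N, hN, C, hC⟩ := (hbt e.target e.symm e.open_target hsmooth).2 0 (e z) hpt
    have hC' : ∀ γ : P, ‖pb e.symm (w γ) (e z)‖ ≤ C := fun γ => by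
      have := hC (e z) (mem_of_mem_nhds hN) γ
      rwa [norm_iteratedFDeriv_zero] at this
    have hmf : MDifferentiableAt (𝓡 d) (𝓡 d) e.symm (e z) :=
      (hsmooth.contMDiffAt (e.open_target.mem_nhds hpt)).mdifferentiableAt (by simp)
    let B : E d →L[ℝ] E d := mfderiv (𝓡 d) (𝓡 d) e z
    let A : E d →L[ℝ] E d := mfderiv (𝓡 d) (𝓡 d) e.symm (e z)
    have hAB : ∀ v : E d, A (B v) = v := fun v =>
      DFunLike.congr_fun (hmd.symm_comp_deriv hz) v
    obtain ⟨γ₀⟩ := hm.nonempty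
    have hC0 : 0 ≤ C := (norm_nonneg _).trans (hC' γ₀)
    refine ⟨C * (‖B‖ * ‖B‖), fun γ u => ?_⟩
    have h2 : (w γ z : (E d) [⋀^Fin 2]→L[ℝ] ℝ) u =
        pb e.symm (w γ) (e z) (fun i => B (u i)) := by
      have h3 : ∀ z' : Z, z' = z → (w γ z : (E d) [⋀^Fin 2]→L[ℝ] ℝ) u =
          (w γ z' : (E d) [⋀^Fin 2]→L[ℝ] ℝ) u := by
        rintro z' rfl
        rfl
      rw [h3 _ (e.left_inv hz)]
      change _ = (w γ (e.symm (e z)) : (E d) [⋀^Fin 2]→L[ℝ] ℝ) (fun i => A (B (u i)))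
      congr 1
      funext i
      exact (hAB (u i)).symm
    rw [h2]
    refine ((pb e.symm (w γ) (e z)).le_opNorm _).trans ?_
    refine (mul_le_mul_of_nonneg_right (hC' γ) (Finset.prod_nonneg fun i _ => norm_nonneg _)).trans ?_
    rw [mul_assoc]
    refine mul_le_mul_of_nonneg_left ?_ hC0
    rw [Fin.prod_univ_two, Fin.prod_univ_two]
    have h4 := B.le_opNorm (u 0)
    have h5 := B.le_opNorm (u 1)
    calc ‖B (u 0)‖ * ‖B (u 1)‖ ≤ (‖B‖ * ‖u 0‖) * (‖B‖ * ‖u 1‖) :=
          mul_le_mul h4 h5 (norm_nonneg _) (mul_nonneg (norm_nonneg _) (norm_nonneg _))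
      _ = ‖B‖ * ‖B‖ * (‖u 0‖ * ‖u 1‖) := by ring
  have hex : ∀ z : Z, ∃ α : (E d) [⋀^Fin 2]→L[ℝ] ℝ, ∀ u : Fin 2 → E d, α u =
      m (fun γ : P => (w γ z : (E d) [⋀^Fin 2]→L[ℝ] ℝ) u) :=
    fun z => exists_avg hm _ (bound z)
  choose w' hw' using hex
  -- the average in coordinates
  have hev : ∀ (φ : E d → Z) (p : E d),
      ∀ v : Fin 2 → E d, pb φ (w' : Form d Z 2) p v =
        m (fun γ : P => pb φ (w γ) p v) := by
    intro φ p v
    have h1 : pb φ (w' : Form d Z 2) p v =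
        w' (φ p) (fun i => mfderiv (𝓡 d) (𝓡 d) φ p (v i)) := rfl
    rw [h1, hw']
    rfl
  have hAV : ∀ (U : Set (E d)) (φ : E d → Z), IsOpen U → ContMDiffOn (𝓡 d) (𝓡 d) ∞ φ U →
      ∀ v : Fin 2 → E d, ContDiffOn ℝ ∞ (fun p => m (fun γ : P => pb φ (w γ) p v)) U ∧
        ∀ p ∈ U, ∀ x : E d, fderiv ℝ (fun p => m (fun γ : P => pb φ (w γ) p v)) p x =
          m (fun γ => fderiv ℝ (fun p => pb φ (w γ) p v) p x) := fun U φ hU hφ v =>
    avg hm (f := fun γ p => pb φ (w γ) p v) hU (unif_eval hU (hbt U φ hU hφ) v)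
  have hsm' : IsSmooth (w' : Form d Z 2) := by
    intro U φ hU hφ
    refine smooth_of_eval fun v => ?_
    exact (hAV U φ hU hφ v).1.congr fun p hp => hev φ p v
  refine ⟨w', hsm', ?_, fun z u => ⟨?_, hw' z u⟩⟩
  · intro U φ hU hφ p hp
    have hd : DifferentiableAt ℝ (pb φ (w' : Form d Z 2)) p :=
      ((hsm' U φ hU hφ).contDiffAt (hU.mem_nhds hp)).differentiableAt (by simp)
    have hun := hbt U φ hU hφ
    have h0 : pb φ (0 : Form d Z (2 + 1)) p = 0 := by
      ext v
      rfl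
    rw [h0]
    ext v
    rw [extDeriv_apply hd]
    have h1 : ∀ i : Fin 3, fderiv ℝ (fun q => pb φ (w' : Form d Z 2) q (i.removeNth v)) p (v i) =
        m (fun γ : P => fderiv ℝ (fun q => pb φ (w γ) q (i.removeNth v)) p (v i)) := by
      intro i
      rw [← (hAV U φ hU hφ (i.removeNth v)).2 p hp]
      have h2 : (fun q => pb φ (w' : Form d Z 2) q (i.removeNth v)) =
          fun q => m (fun γ : P => pb φ (w γ) q (i.removeNth v)) := by
        funext q
        exact hev φ q _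
      rw [h2]
    have hbd : ∀ i : Fin 3, Bdd (fun γ : P =>
        fderiv ℝ (fun q => pb φ (w γ) q (i.removeNth v)) p (v i)) := by
      intro i
      obtain ⟨N, hN, C, hC⟩ := (unif_eval hU hun (i.removeNth v)).2 1 p hp
      refine ⟨C * ‖v i‖, fun γ => ?_⟩
      have h2 := hC p (mem_of_mem_nhds hN) γ
      rw [norm_iteratedFDeriv_one] at h2
      exact (ContinuousLinearMap.le_opNorm _ _).trans
        (mul_le_mul_of_nonneg_right h2 (norm_nonneg _))
    have h3 : ∀ γ : P, ∑ i : Fin 3, (-1 : ℝ) ^ i.val *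
        fderiv ℝ (fun q => pb φ (w γ) q (i.removeNth v)) p (v i) = 0 := by
      intro γ
      have h5 := hcl γ U φ hU hφ p hp
      have h6 : DifferentiableAt ℝ (pb φ (w γ)) p :=
        ((hw γ U _ hU hφ).contDiffAt (hU.mem_nhds hp)).differentiableAt (by simp)
      have h7 : extDeriv (pb φ (w γ)) p v = 0 := congrArg (fun α => α v) h5
      rw [extDeriv_apply h6] at h7
      simpa only [zsmul_eq_mul, Int.cast_pow, Int.cast_neg, Int.cast_one] using h7
    have h8 := (m_sum hm Finset.univ (fun i : Fin 3 => (-1 : ℝ) ^ i.val)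
      (fun (i : Fin 3) (γ : P) => fderiv ℝ (fun q => pb φ (w γ) q (i.removeNth v)) p (v i)) hbd).2
    simp only [h3] at h8
    rw [m_const hm] at h8
    show ∑ i : Fin 3, (-1 : ℤ) ^ i.val •
      fderiv ℝ (fun q => pb φ (w' : Form d Z 2) q (i.removeNth v)) p (v i) = (0 : ℝ)
    simp only [h1, zsmul_eq_mul, Int.cast_pow, Int.cast_neg, Int.cast_one]
    exact h8.symm
  · obtain ⟨C, hC⟩ := bound z
    exact ⟨_, fun γ => hC γ u⟩

end

end Pool.Agent.N763.SY
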